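import Pool.Agent.H92.MuG.Rel

/-!
# The order of `V / ξ_i V` and relation matrices (stub GROW of project MU)
-/

set_option autoImplicit false

namespace Pool.Agent.H92.MuG

open Polynomial Pool.Agent.H55.MU

theorem index_range {F : Type} [AddCommGroup F] [Module.Free ℤ F] [Module.Finite ℤ F]
    (T : F →ₗ[ℤ] F) (hT : LinearMap.det T ≠ 0) :
    (LinearMap.range T).toAddSubgroup.index = (LinearMap.det T).natAbs := by
  classical
  let b := Module.Free.chooseBasis ℤ F
  have hinj : Function.Injective T := by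
    rw [← LinearMap.ker_eq_bot, LinearMap.ker_eq_bot']
    intro v hv
    have h1 : (LinearMap.toMatrix b b T).det ≠ 0 := by rwa [LinearMap.det_toMatrix]
    have h2 : (LinearMap.toMatrix b b T).mulVec (b.repr v) = 0 := by
      rw [LinearMap.toMatrix_mulVec_repr, hv, map_zero]; rfl
    have h3 := Matrix.eq_zero_of_mulVec_eq_zero h1 h2
    exact b.repr.map_eq_zero_iff.1 (DFunLike.coe_injective h3)
  have h := Submodule.natAbs_det_equiv (LinearMap.range T) (LinearEquiv.ofInjective T hinj)
  have h' : (LinearMap.range T).subtype ∘ₗ AddMonoidHom.toIntLinearMap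
      ((LinearEquiv.ofInjective T hinj : F ≃ₗ[ℤ] LinearMap.range T) : F →+ LinearMap.range T) = T := by
    ext v; rfl
  rw [h'] at h
  rw [h]; rfl

theorem ppow_card {V : Type} [AddCommGroup V] [Finite V] (p : ℕ) [hp : Fact p.Prime]
    (hpV : ∀ v : V, ∃ k : ℕ, (p ^ k) • v = 0) : ∃ t, Nat.card V = p ^ t := by
  have h : IsPGroup p (Multiplicative V) := fun v => by
    obtain ⟨k, hk⟩ := hpV v.toAdd
    exact ⟨k, hk⟩
  exact (IsPGroup.iff_card (G := Multiplicative V)).1 h

theorem card_quot (p i : ℕ) [hp : Fact p.Prime] (hi : 1 ≤ i) {V : Type} [AddCommGroup V]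
    [Module ℤ[X] V] [Finite V] (hpV : ∀ v : V, ∃ k : ℕ, (p ^ k) • v = 0)
    {d : ℕ} (x : Fin d → V) (hx : Submodule.span ℤ[X] (Set.range x) = ⊤)
    (M : Matrix (Fin d) (Fin d) ℤ[X]) (hM : ∀ i, ∑ j, M i j • x j = 0) (k : ℕ)
    (hk : ¬ (p : ℤ) ^ (k + 1) ∣ Nm p i M.det) : qc V (xi p i) ≤ p ^ k := by
  classical
  let R := AdjoinRoot (xi p i)
  have : Module.Free ℤ R := Module.Free.of_basis (bs p i hi)
  have : Module.Finite ℤ R := Module.Finite.of_basis (bs p i hi)
  let mk : ℤ[X] →+* R := AdjoinRoot.mk (xi p i)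
  let T : (Fin d → R) →ₗ[R] (Fin d → R) := Matrix.toLin' (M.map mk).transpose
  have hdet : LinearMap.det T = mk M.det := by
    rw [LinearMap.det_toLin', Matrix.det_transpose, RingHom.map_det]; rfl
  let TZ : (Fin d → R) →ₗ[ℤ] (Fin d → R) := T.restrictScalars ℤ
  have hdetZ : LinearMap.det TZ = Nm p i M.det := by
    rw [LinearMap.det_restrictScalars, hdet]; rfl
  have hne : LinearMap.det TZ ≠ 0 := by
    rw [hdetZ]; intro h; rw [h] at hk; exact hk (dvd_zero _)
  have hind := index_range TZ hne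
  -- the map of the free module onto the quotient
  let Q := V ⧸ ml V (xi p i)
  let π : (Fin d → ℤ[X]) →+ Q :=
    ((ml V (xi p i)).mkQ ∘ₗ Fintype.linearCombination ℤ[X] x).toAddMonoidHom
  have hπ : ∀ c, π c = (ml V (xi p i)).mkQ (∑ j, c j • x j) := fun c => rfl
  have hπs : Function.Surjective π := by
    intro q
    obtain ⟨v, rfl⟩ := (ml V (xi p i)).mkQ_surjective q
    have hu : v ∈ Submodule.span ℤ[X] (Set.range x) := by rw [hx]; trivial
    obtain ⟨c, rfl⟩ := (Submodule.mem_span_range_iff_exists_fun ℤ[X]).1 hu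
    exact ⟨c, rfl⟩
  let red : (Fin d → ℤ[X]) →+ (Fin d → R) :=
    { toFun := fun c j => mk (c j)
      map_zero' := by ext j; simp
      map_add' := fun c c' => by ext j; simp }
  have hred : Function.Surjective red := by
    intro c
    choose c' hc' using fun j => AdjoinRoot.mk_surjective (g := xi p i) (c j)
    exact ⟨c', funext hc'⟩
  have hle : (LinearMap.range TZ).toAddSubgroup.comap red ≤ π.ker := by
    intro c hc
    obtain ⟨b, hb⟩ := hc
    obtain ⟨b, rfl⟩ := hred b
    have hcj : ∀ j, ∃ e : ℤ[X], c j = ∑ i', b i' * M i' j + xi p i * e := by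
      intro j
      have h1 : T (red b) j = mk (c j) := congrFun hb j
      have h2 : T (red b) j = mk (∑ i', b i' * M i' j) := by
        simp only [T, Matrix.toLin'_apply, Matrix.mulVec, dotProduct, Matrix.transpose_apply,
          Matrix.map_apply, map_sum, map_mul]
        exact Finset.sum_congr rfl fun i' _ => mul_comm _ _
      rw [h2] at h1
      obtain ⟨e, he⟩ := AdjoinRoot.mk_eq_mk.1 h1.symm
      exact ⟨e, by rw [← he]; ring⟩
    choose e he using hcj
    rw [AddMonoidHom.mem_ker, hπ, Submodule.mkQ_apply, Submodule.Quotient.mk_eq_zero, mem_ml]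
    refine ⟨∑ j, e j • x j, ?_⟩
    have e1 : ∑ j, c j • x j = ∑ j, (∑ i', b i' * M i' j) • x j + ∑ j, (xi p i * e j) • x j := by
      rw [← Finset.sum_add_distrib]
      exact Finset.sum_congr rfl fun j _ => by rw [he j, add_smul]
    have e2 : ∑ j, (∑ i', b i' * M i' j) • x j = 0 := by
      have : ∑ j, (∑ i', b i' * M i' j) • x j = ∑ i', b i' • ∑ j, M i' j • x j := by
        simp only [Finset.sum_smul, Finset.smul_sum, smul_smul]
        exact Finset.sum_comm
      rw [this]
      exact Finset.sum_eq_zero fun i' _ => by rw [hM i', smul_zero]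
    rw [e1, e2, zero_add, Finset.smul_sum]
    exact Finset.sum_congr rfl fun j _ => by rw [smul_smul]
  have hdvd : qc V (xi p i) ∣ (Nm p i M.det).natAbs := by
    have h1 : π.ker.index = qc V (xi p i) := by
      rw [AddSubgroup.index_ker, AddMonoidHom.range_eq_top.2 hπs]
      exact Nat.card_congr AddSubgroup.topEquiv.toEquiv
    rw [← h1, ← hdetZ, ← hind, ← AddSubgroup.index_comap_of_surjective _ hred]
    exact AddSubgroup.index_dvd_of_le hle
  have hQ : ∀ v : Q, ∃ k : ℕ, (p ^ k) • v = 0 := by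
    intro q
    obtain ⟨v, rfl⟩ := (ml V (xi p i)).mkQ_surjective q
    obtain ⟨k, hk⟩ := hpV v
    exact ⟨k, by rw [← map_nsmul, hk, map_zero]⟩
  have : Finite Q := Finite.of_surjective _ (ml V (xi p i)).mkQ_surjective
  obtain ⟨t, ht⟩ := ppow_card p hQ
  have ht' : qc V (xi p i) = p ^ t := ht
  rw [ht'] at hdvd ⊢
  refine Nat.pow_le_pow_right hp.out.pos ?_
  by_contra hlt
  push Not at hlt
  apply hk
  have h2 : ((p ^ t : ℕ) : ℤ) ∣ Nm p i M.det := Int.natCast_dvd.2 hdvd
  refine (pow_dvd_pow (p : ℤ) (show k + 1 ≤ t by omega)).trans ?_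
  exact_mod_cast h2

end Pool.Agent.H92.MuG
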