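import Pool.Agent.H92.MuG.Cnt

/-!
# Stub GROW of project MU: growth of finite `ℤ[X]`-modules
-/

set_option autoImplicit false

namespace Pool.Agent.H92.MuG

open Polynomial Pool.Agent.H55.MU

/-! ## The telescoping product -/

theorem nu_zero (p : ℕ) : nu p 0 = 1 := by simp [nu]

theorem nu_one (p : ℕ) : nu p 1 = xi p 1 := by simp [nu, xi]

theorem nu_succ (p n : ℕ) : nu p (n + 1) = nu p n * xi p (n + 1) := by
  have h : ∀ (Y : ℤ[X]) (a b : ℕ), ∑ j ∈ Finset.range (a * b), Y ^ j =
      (∑ j ∈ Finset.range a, Y ^ j) * ∑ j ∈ Finset.range b, Y ^ (j * a) := by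
    intro Y a b
    induction b with
    | zero => simp
    | succ b ih =>
      rw [Nat.mul_succ, Finset.sum_range_add, ih, Finset.sum_range_succ, mul_add]
      congr 1
      rw [Finset.sum_mul]
      refine Finset.sum_congr rfl fun j _ => ?_
      rw [← pow_add, add_comm (a * b), mul_comm a b]
  rw [nu, pow_succ, h]; rfl

theorem card_range_mul {V : Type} [AddCommGroup V] [Module ℤ[X] V] [Finite V] (a b : ℤ[X]) :
    Nat.card (ml V a) ≤ qc V b * Nat.card (ml V (a * b)) := by
  let Q := V ⧸ ml V b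
  have hfin : Finite Q := Finite.of_surjective _ (ml V b).mkQ_surjective
  have hs : Function.Surjective (fun z : Q × ml V (a * b) =>
      (⟨a • Function.surjInv (ml V b).mkQ_surjective z.1 + z.2, by
        refine (ml V a).add_mem ((mem_ml _ _).2 ⟨_, rfl⟩) ?_
        obtain ⟨u, hu⟩ := (mem_ml _ _).1 z.2.2
        exact (mem_ml _ _).2 ⟨b • u, by rw [smul_smul, hu]⟩⟩ : ml V a)) := by
    rintro ⟨w, hw⟩
    obtain ⟨v, rfl⟩ := (mem_ml _ _).1 hw
    have h1 : (ml V b).mkQ (Function.surjInv (ml V b).mkQ_surjective ((ml V b).mkQ v)) =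
        (ml V b).mkQ v := Function.surjInv_eq _ _
    rw [← sub_eq_zero, ← map_sub, Submodule.mkQ_apply, Submodule.Quotient.mk_eq_zero, mem_ml] at h1
    obtain ⟨u, hu⟩ := h1
    refine ⟨((ml V b).mkQ v, ⟨(a * b) • (-u), (mem_ml _ _).2 ⟨_, rfl⟩⟩), ?_⟩
    apply Subtype.ext
    change a • Function.surjInv (ml V b).mkQ_surjective ((ml V b).mkQ v) + (a * b) • (-u) = a • v
    rw [← smul_smul, smul_neg, hu, ← smul_add]
    congr 1; abel
  have := Nat.card_le_card_of_surjective _ hs
  rwa [Nat.card_prod] at this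

theorem card_le_prod (p : ℕ) {V : Type} [AddCommGroup V] [Module ℤ[X] V] [Finite V] (n : ℕ) :
    Nat.card V ≤ (∏ i ∈ Finset.range n, qc V (xi p (i + 1))) * Nat.card (ml V (nu p n)) := by
  induction n with
  | zero =>
    rw [Finset.range_zero, Finset.prod_empty, one_mul, nu_zero]
    exact Nat.card_le_card_of_injective (fun v => (⟨v, (mem_ml _ _).2 ⟨v, one_smul _ v⟩⟩ :
      ml V (1 : ℤ[X]))) fun v w h => congrArg Subtype.val h
  | succ n ih =>
    refine ih.trans ?_
    rw [Finset.prod_range_succ, mul_assoc, nu_succ]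
    exact Nat.mul_le_mul_left _ (card_range_mul _ _)

theorem qc_xi_le (p : ℕ) {V : Type} [AddCommGroup V] [Module ℤ[X] V] [Finite V] (n : ℕ) :
    qc V (xi p (n + 1)) ≤ qc V (nu p (n + 1)) := by
  have hle : ml V (nu p (n + 1)) ≤ ml V (xi p (n + 1)) := by
    intro v hv
    obtain ⟨u, rfl⟩ := (mem_ml _ _).1 hv
    exact (mem_ml _ _).2 ⟨nu p n • u, by rw [smul_smul, nu_succ, mul_comm]⟩
  have : Finite (V ⧸ ml V (nu p (n + 1))) := Finite.of_surjective _ (Submodule.mkQ_surjective _)
  exact Nat.card_le_card_of_surjective _ (Submodule.factor_surjective hle)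

/-! ## The bound for a single module -/

theorem ph_sum (p m : ℕ) [hp : Fact p.Prime] :
    ∑ i ∈ Finset.range m, ph p (i + 1) ≤ p ^ m := by
  have h : ∑ i ∈ Finset.range m, ph p (i + 1) + 1 = p ^ m := by
    induction m with
    | zero => simp
    | succ m ih =>
      rw [Finset.sum_range_succ, add_right_comm, ih, ph, Nat.add_sub_cancel, pow_succ]
      obtain ⟨q, hq⟩ : ∃ q, p = q + 1 := ⟨p - 1, by have := hp.out.pos; omega⟩
      rw [hq, Nat.add_sub_cancel]; ring
  omega

theorem lt_ph (p i : ℕ) [hp : Fact p.Prime] : i < ph p (i + 1) := by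
  rw [ph, Nat.add_sub_cancel]
  have h1 : i < p ^ i := Nat.lt_pow_self hp.out.one_lt
  have h2 : 1 ≤ p - 1 := by have := hp.out.two_le; omega
  nlinarith

theorem main : S_GROW := by
  intro p hp l c U _ _ _ hpU hXU hqU
  classical
  -- Step 1: the determinants
  have step1 : ∀ m, ∃ (d : ℕ) (x : Fin d → U m) (M : Matrix (Fin d) (Fin d) ℤ[X]),
      Submodule.span ℤ[X] (Set.range x) = ⊤ ∧ (∀ i, ∑ j, M i j • x j = 0) ∧
      ¬ (p : ℤ) ^ (l + 1) ∣ Nm p 1 M.det := by
    intro m
    have : Module.Finite ℤ[X] (U m) := Module.Finite.of_finite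
    obtain ⟨d, x, hx⟩ := Module.Finite.exists_fin (R := ℤ[X]) (M := U m)
    obtain ⟨M, k, h1, h2, h3⟩ := relat p (hpU m) (hXU m) x hx ⊥
    refine ⟨d, x, M, hx, fun i => by simpa using h1 i, fun hd => h2 ?_⟩
    refine (pow_dvd_pow _ ?_).trans hd
    rw [bot_sup_eq] at h3
    have h4 : qc (U m) (xi p 1) * Nat.card (ml (U m) (xi p 1)) = Nat.card (U m) := by
      have := (ml (U m) (xi p 1)).card_eq_card_quotient_mul_card
      rw [this, mul_comm]; rfl
    rw [← h4] at h3
    have hpos : 0 < Nat.card (ml (U m) (xi p 1)) := Nat.card_pos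
    have h5 : p ^ k ≤ p ^ l := by
      refine (Nat.le_of_mul_le_mul_right h3 hpos).trans ?_
      rw [← nu_one]; exact hqU m
    have := (Nat.pow_le_pow_iff_right hp.out.one_lt).1 h5
    omega
  choose d x M hx hM hN using step1
  set f : ℕ → ℤ[X] := fun m => (M m).det with hf
  set μ := l / (p - 1) with hμ
  have hp1 : 0 < p - 1 := by have := hp.out.two_le; omega
  -- Step 2: a coefficient of small valuation
  have step2 : ∀ m, ∃ j ≤ l, ¬ (p : ℤ) ^ (μ + 1) ∣ (f m).coeff j := by
    intro m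
    by_contra h
    push Not at h
    refine hN m (val_ge p 1 le_rfl (f m) l (μ + 1) h ?_)
    have : ph p 1 = p - 1 := by simp [ph]
    rw [this]
    have := Nat.lt_div_mul_add (a := l) hp1
    rw [add_mul, one_mul]
    exact this
  -- Step 3: the least exponent for which there is a bounded index, for infinitely many `m`
  have hQ : ∃ h : ℕ, ∃ L : ℕ, ∀ m, ∃ m' ≥ m, ∃ j ≤ L, ¬ (p : ℤ) ^ (h + 1) ∣ (f m').coeff j :=
    ⟨μ, l, fun m => ⟨m, le_rfl, step2 m⟩⟩
  set b := Nat.find hQ with hb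
  have hbμ : b ≤ μ := Nat.find_min' hQ ⟨l, fun m => ⟨m, le_rfl, step2 m⟩⟩
  obtain ⟨L, hL⟩ := Nat.find_spec hQ
  have hlow : ∀ L', ∃ m₀, ∀ m' ≥ m₀, ∀ j ≤ L', (p : ℤ) ^ b ∣ (f m').coeff j := by
    intro L'
    rcases Nat.eq_zero_or_pos b with h0 | h0
    · exact ⟨0, fun m' _ j _ => by rw [h0, pow_zero]; exact one_dvd _⟩
    · have h1 := Nat.find_min hQ (m := b - 1) (by omega)
      push Not at h1
      obtain ⟨m₀, hm₀⟩ := h1 L'
      refine ⟨m₀, fun m' hm' j hj => ?_⟩
      have := hm₀ m' hm' j hj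
      rwa [Nat.sub_add_cancel h0] at this
  -- Step 4: the bound for one quotient
  have step4 : ∀ (m : ℕ) (V : Type) [AddCommGroup V] [Module ℤ[X] V] [Finite V],
      (∀ m' ≥ m, ∃ F : U m' →ₗ[ℤ[X]] V, Function.Surjective F) → ∀ i, L < ph p (i + 1) →
      qc V (xi p (i + 1)) ≤ p ^ (μ * ph p (i + 1) + L) := by
    intro m V _ _ _ hV i hi
    obtain ⟨m₀, hm₀⟩ := hlow (b * ph p (i + 1) + L)
    obtain ⟨m', hm', j, hj, hjd⟩ := hL (max m m₀)
    have hex : ∃ j, ¬ (p : ℤ) ^ (b + 1) ∣ (f m').coeff j := ⟨j, hjd⟩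
    set j₀ := Nat.find hex with hj₀
    have hj₀L : j₀ ≤ L := (Nat.find_min' hex hjd).trans hj
    have hval := val_eq p (i + 1) (Nat.succ_pos i) (f m') b j₀
      (fun j hj => not_not.1 (Nat.find_min hex hj))
      (fun j hj => hm₀ m' ((le_max_right _ _).trans hm') j (by omega))
      (Nat.find_spec hex) (lt_of_le_of_lt hj₀L hi)
    obtain ⟨F, hF⟩ := hV m' ((le_max_left _ _).trans hm')
    have hpV : ∀ v : V, ∃ k : ℕ, (p ^ k) • v = 0 := by
      intro v
      obtain ⟨u, rfl⟩ := hF v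
      obtain ⟨k, hk⟩ := hpU m' u
      exact ⟨k, by rw [← map_nsmul, hk, map_zero]⟩
    have hxV : Submodule.span ℤ[X] (Set.range (fun j => F (x m' j))) = ⊤ := by
      have : Set.range (fun j => F (x m' j)) = F '' Set.range (x m') := by
        rw [← Set.range_comp]; rfl
      rw [this, ← Submodule.map_span, hx, Submodule.map_top, LinearMap.range_eq_top.2 hF]
    have hMV : ∀ i, ∑ j, M m' i j • F (x m' j) = 0 := by
      intro i
      have := congrArg F (hM m' i)
      rw [map_sum, map_zero] at this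
      rw [← this]
      exact Finset.sum_congr rfl fun j _ => (map_smul F _ _).symm
    have h := card_quot p (i + 1) (Nat.succ_pos i) hpV _ hxV (M m') hMV _ hval
    refine h.trans (Nat.pow_le_pow_right hp.out.pos ?_)
    exact Nat.add_le_add (Nat.mul_le_mul_right _ hbμ) hj₀L
  -- Step 5: the product
  refine ⟨L + ∑ i ∈ Finset.range L, c (i + 1), ?_⟩
  intro m V _ _ _ hν hc hV
  have hone : Nat.card (ml V (nu p m)) = 1 := by
    have : ml V (nu p m) = ⊥ := by
      rw [eq_bot_iff]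
      intro v hv
      obtain ⟨u, rfl⟩ := (mem_ml _ _).1 hv
      rw [hν u]; exact Submodule.zero_mem _
    rw [this]; exact Nat.card_unique
  have h1 := card_le_prod p (V := V) m
  rw [hone, mul_one] at h1
  refine h1.trans ?_
  set e : ℕ → ℕ := fun i => if i < L then c (i + 1) else 0 with he
  have hfac : ∀ i, qc V (xi p (i + 1)) ≤ p ^ (μ * ph p (i + 1) + L + e i) := by
    intro i
    by_cases hi : L < ph p (i + 1)
    · exact (step4 m V hV i hi).trans (Nat.pow_le_pow_right hp.out.pos (Nat.le_add_right _ _))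
    · have hiL : i < L := lt_of_lt_of_le (lt_ph p i) (not_lt.1 hi)
      refine ((qc_xi_le p i).trans (hc (i + 1))).trans ?_
      refine (Nat.lt_pow_self (n := c (i + 1)) hp.out.one_lt).le.trans
        (Nat.pow_le_pow_right hp.out.pos ?_)
      simp only [he, if_pos hiL]
      exact Nat.le_add_left _ _
  refine (Finset.prod_le_prod' fun i _ => hfac i).trans ?_
  rw [Finset.prod_pow_eq_pow_sum]
  refine Nat.pow_le_pow_right hp.out.pos ?_
  rw [Finset.sum_add_distrib, Finset.sum_add_distrib, ← Finset.mul_sum, Finset.sum_const,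
    Finset.card_range, smul_eq_mul]
  have h2 : ∑ i ∈ Finset.range m, e i ≤ ∑ i ∈ Finset.range L, c (i + 1) := by
    have : ∑ i ∈ Finset.range m, e i = ∑ i ∈ (Finset.range m).filter (· < L), c (i + 1) := by
      rw [Finset.sum_filter]
    rw [this]
    refine Finset.sum_le_sum_of_subset fun i hi => ?_
    rw [Finset.mem_filter] at hi
    exact Finset.mem_range.2 hi.2
  have h3 := Nat.mul_le_mul_left μ (ph_sum p m)
  have h4 : (L + ∑ i ∈ Finset.range L, c (i + 1)) * (m + 1) =
      m * L + L + (∑ i ∈ Finset.range L, c (i + 1)) * m + ∑ i ∈ Finset.range L, c (i + 1) := by ring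
  rw [h4]
  have h5 : 0 ≤ (∑ i ∈ Finset.range L, c (i + 1)) * m := Nat.zero_le _
  omega

end Pool.Agent.H92.MuG
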