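import Pool.Agent.H55.MU.Stm

/-!
# Norms of polynomials modulo `ξ_i` (stub GROW of project MU)

`Nm p i f` is the norm of `f` in `ℤ[X]/(ξ_i)`; `X` is a prime element above `p` there, with
`p` equal to a unit (at `p`) times `X ^ φ(p ^ i)`.
-/

set_option autoImplicit false

namespace Pool.Agent.H92.MuG

open Polynomial Pool.Agent.H55.MU

/-- the degree of `ξ_i` -/
def ph (p i : ℕ) : ℕ := p ^ (i - 1) * (p - 1)

theorem xi_eq (p i : ℕ) [hp : Fact p.Prime] (hi : 1 ≤ i) :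
    xi p i = (cyclotomic (p ^ i) ℤ).comp (X + 1) := by
  obtain ⟨n, rfl⟩ : ∃ n, i = n + 1 := ⟨i - 1, by omega⟩
  rw [cyclotomic_prime_pow_eq_geom_sum hp.out, xi, sum_comp]
  refine Finset.sum_congr rfl fun j _ => ?_
  rw [pow_comp, pow_comp, X_comp, ← pow_mul, Nat.add_sub_cancel, mul_comm j, add_comm (1 : ℤ[X])]

theorem xi_monic (p i : ℕ) [hp : Fact p.Prime] (hi : 1 ≤ i) : (xi p i).Monic := by
  rw [xi_eq p i hi, show (X + 1 : ℤ[X]) = X + C 1 by simp]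
  refine (cyclotomic.monic _ ℤ).comp (monic_X_add_C 1) fun h => ?_
  rw [natDegree_X_add_C] at h
  exact zero_ne_one h.symm

theorem xi_deg (p i : ℕ) [hp : Fact p.Prime] (hi : 1 ≤ i) : (xi p i).natDegree = ph p i := by
  rw [xi_eq p i hi, natDegree_comp, show (X + 1 : ℤ[X]) = X + C 1 by simp, natDegree_X_add_C,
    mul_one, natDegree_cyclotomic, Nat.totient_prime_pow hp.out hi, ph]

theorem ph_pos (p i : ℕ) [hp : Fact p.Prime] : 0 < ph p i :=
  Nat.mul_pos (pow_pos hp.out.pos _) (by have := hp.out.two_le; omega)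

theorem xi_form (p i : ℕ) [hp : Fact p.Prime] (hi : 1 ≤ i) :
    ∃ h : ℤ[X], h.coeff 0 = 1 ∧ xi p i = X ^ ph p i + C (p : ℤ) * h := by
  have hE : (xi p i).IsEisensteinAt (Submodule.span ℤ {(p : ℤ)}) := by
    rw [xi_eq p i hi]
    obtain ⟨n, rfl⟩ : ∃ n, i = n + 1 := ⟨i - 1, by omega⟩
    exact cyclotomic_prime_pow_comp_X_add_one_isEisensteinAt p n
  have hd : C (p : ℤ) ∣ xi p i - X ^ ph p i := by
    rw [C_dvd_iff_dvd_coeff]
    intro j
    rw [coeff_sub, coeff_X_pow]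
    rcases lt_trichotomy j (ph p i) with h | h | h
    · rw [if_neg h.ne, sub_zero]
      have := hE.mem (n := j) (by rw [xi_deg p i hi]; exact h)
      exact Ideal.mem_span_singleton.1 this
    · rw [if_pos h]
      have : (xi p i).coeff j = 1 := by
        rw [h, ← xi_deg p i hi]; exact xi_monic p i hi
      rw [this, sub_self]; exact dvd_zero _
    · rw [if_neg h.ne', coeff_eq_zero_of_natDegree_lt (by rw [xi_deg p i hi]; exact h), sub_zero]
      exact dvd_zero _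
  obtain ⟨h, hh⟩ := hd
  refine ⟨h, ?_, by rw [← hh]; ring⟩
  have h0 : (xi p i).coeff 0 = p := by
    rw [coeff_zero_eq_eval_zero, xi, eval_finset_sum]
    simp
  have := congrArg (fun f => coeff f 0) hh
  simp only [coeff_sub, coeff_X_pow, coeff_C_mul, h0] at this
  rw [if_neg (ph_pos p i).ne, sub_zero] at this
  have hp0 : (p : ℤ) ≠ 0 := by exact_mod_cast hp.out.ne_zero
  exact (mul_left_cancel₀ hp0 (by rw [← this, mul_one])).symm

/-- the norm of `f` modulo `ξ_i` -/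
noncomputable def Nm (p i : ℕ) (f : ℤ[X]) : ℤ := Algebra.norm ℤ (AdjoinRoot.mk (xi p i) f)

theorem Nm_mul (p i : ℕ) (f g : ℤ[X]) : Nm p i (f * g) = Nm p i f * Nm p i g := by
  rw [Nm, map_mul, map_mul]; rfl

theorem Nm_pow (p i : ℕ) (f : ℤ[X]) (n : ℕ) : Nm p i (f ^ n) = Nm p i f ^ n := by
  rw [Nm, map_pow, map_pow]; rfl

theorem Nm_congr (p i : ℕ) {f g : ℤ[X]} (h : AdjoinRoot.mk (xi p i) f = AdjoinRoot.mk (xi p i) g) :
    Nm p i f = Nm p i g := by rw [Nm, h]; rfl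

/-- a basis of `ℤ[X]/(ξ_i)` -/
noncomputable def bs (p i : ℕ) [Fact p.Prime] (hi : 1 ≤ i) :=
  (AdjoinRoot.powerBasis' (xi_monic p i hi)).basis

theorem Nm_one_add (p i : ℕ) [hp : Fact p.Prime] (hi : 1 ≤ i) (w : ℤ[X]) :
    (p : ℤ) ∣ Nm p i (1 + C (p : ℤ) * w) - 1 := by
  rw [← ZMod.intCast_zmod_eq_zero_iff_dvd, Int.cast_sub, Int.cast_one, sub_eq_zero, Nm,
    Algebra.norm_eq_matrix_det (bs p i hi), map_add, map_mul, map_one]
  have h1 : AdjoinRoot.mk (xi p i) (C (p : ℤ)) = ((p : ℤ) : AdjoinRoot (xi p i)) := by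
    rw [AdjoinRoot.mk_C]; simp
  have h2 : Algebra.leftMulMatrix (bs p i hi)
      (1 + AdjoinRoot.mk (xi p i) (C (p : ℤ)) * AdjoinRoot.mk (xi p i) w) =
      1 + (p : ℤ) • Algebra.leftMulMatrix (bs p i hi) (AdjoinRoot.mk (xi p i) w) := by
    rw [map_add, map_one, h1, ← zsmul_eq_mul, map_zsmul]
  rw [h2]
  change (Int.castRingHom (ZMod p)) _ = 1
  rw [RingHom.map_det, RingHom.mapMatrix_apply]
  have h3 : (1 + (p : ℤ) • Algebra.leftMulMatrix (bs p i hi) (AdjoinRoot.mk (xi p i) w)).map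
      (Int.castRingHom (ZMod p)) = 1 := by
    ext a b
    rw [Matrix.map_apply, Matrix.add_apply, Matrix.smul_apply, map_add, smul_eq_mul, map_mul,
      Matrix.one_apply, Matrix.one_apply]
    simp only [eq_intCast, Int.cast_natCast, CharP.cast_eq_zero, zero_mul, add_zero]
    split_ifs <;> simp
  rw [h3, Matrix.det_one]

theorem Nm_unit (p i : ℕ) [hp : Fact p.Prime] (hi : 1 ≤ i) (g : ℤ[X])
    (hg : ¬ (p : ℤ) ∣ g.coeff 0) : ¬ (p : ℤ) ∣ Nm p i g := by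
  intro hN
  obtain ⟨h, -, hh⟩ := xi_form p i hi
  have hpp : Prime (p : ℤ) := Nat.prime_iff_prime_int.1 hp.out
  have hco : IsCoprime (g.coeff 0) (p : ℤ) :=
    ((Prime.coprime_iff_not_dvd hpp).2 hg).symm
  obtain ⟨a, b, hab⟩ := hco
  obtain ⟨g', hg'⟩ : X ∣ g - C (g.coeff 0) := X_dvd_iff.2 (by simp)
  -- `C a * g = 1 + z - p b`
  set z : ℤ[X] := X * (C a * g') with hz
  have e1 : C a * g = 1 + z - C (p : ℤ) * C b := by
    have : C a * C (g.coeff 0) + C b * C (p : ℤ) = (1 : ℤ[X]) := by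
      rw [← C_mul, ← C_mul, ← C_add, hab, C_1]
    rw [hz]; linear_combination C a * hg' + this
  obtain ⟨S, hS⟩ : (1 + z) ∣ 1 - (-z) ^ ph p i := by
    have := sub_dvd_pow_sub_pow (1 : ℤ[X]) (-z) (ph p i)
    rwa [one_pow, sub_neg_eq_add] at this
  have hmk : AdjoinRoot.mk (xi p i) (X ^ ph p i) = AdjoinRoot.mk (xi p i) (-(C (p : ℤ) * h)) := by
    rw [← sub_eq_zero, ← map_sub, AdjoinRoot.mk_eq_zero]
    exact ⟨1, by rw [hh]; ring⟩
  have key : AdjoinRoot.mk (xi p i) (g * (C a * S)) = AdjoinRoot.mk (xi p i)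
      (1 + C (p : ℤ) * ((-1) ^ ph p i * h * (C a * g') ^ ph p i - C b * S)) := by
    have e2 : g * (C a * S) = 1 - X ^ ph p i * ((-1) ^ ph p i * (C a * g') ^ ph p i) -
        C (p : ℤ) * (C b * S) := by
      have : (-z) ^ ph p i = X ^ ph p i * ((-1) ^ ph p i * (C a * g') ^ ph p i) := by
        rw [hz, neg_pow, mul_pow]; ring
      rw [← this]; linear_combination S * e1 - hS
    rw [e2, map_sub, map_sub, map_mul, hmk, ← map_mul, ← map_sub, ← map_sub]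
    congr 1; ring
  have h1 := Nm_one_add p i hi ((-1) ^ ph p i * h * (C a * g') ^ ph p i - C b * S)
  rw [← Nm_congr p i key, Nm_mul] at h1
  have h2 : (p : ℤ) ∣ 1 := by
    have := dvd_sub (hN.mul_right (Nm p i (C a * S))) h1
    simpa using this
  exact hpp.not_unit (isUnit_of_dvd_one h2)

theorem mk_form (p i : ℕ) [hp : Fact p.Prime] {h : ℤ[X]}
    (hh : xi p i = X ^ ph p i + C (p : ℤ) * h) :
    AdjoinRoot.mk (xi p i) (C (p : ℤ) * h) = AdjoinRoot.mk (xi p i) (-X ^ ph p i) := by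
  rw [← sub_eq_zero, ← map_sub, AdjoinRoot.mk_eq_zero]
  exact ⟨1, by rw [hh]; ring⟩

theorem Nm_C (p i : ℕ) [hp : Fact p.Prime] (hi : 1 ≤ i) (a : ℤ) : Nm p i (C a) = a ^ ph p i := by
  rw [Nm, AdjoinRoot.mk_C]
  have : AdjoinRoot.of (xi p i) a = algebraMap ℤ (AdjoinRoot (xi p i)) a := rfl
  rw [this, Algebra.norm_algebraMap_of_basis (bs p i hi)]
  simp [xi_deg p i hi]

theorem Nm_X (p i : ℕ) [hp : Fact p.Prime] (hi : 1 ≤ i) :
    ∃ a : ℤ, Nm p i X = p * a ∧ ¬ (p : ℤ) ∣ a := by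
  obtain ⟨h, h0, hh⟩ := xi_form p i hi
  have hpp : Prime (p : ℤ) := Nat.prime_iff_prime_int.1 hp.out
  have hu : ¬ (p : ℤ) ∣ Nm p i h := Nm_unit p i hi h (by
    rw [h0]; exact fun H => hpp.not_unit (isUnit_of_dvd_one H))
  have e : (p : ℤ) ^ ph p i * Nm p i h = Nm p i (-1) * Nm p i X ^ ph p i := by
    rw [← Nm_C p i hi, ← Nm_mul, Nm_congr p i (mk_form p i hh), ← Nm_pow, ← Nm_mul]
    congr 1; ring
  have hu1 : ¬ (p : ℤ) ∣ Nm p i (-1) := Nm_unit p i hi _ (by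
    simp only [coeff_neg, coeff_one_zero, dvd_neg]
    exact fun H => hpp.not_unit (isUnit_of_dvd_one H))
  have hd : (p : ℤ) ∣ Nm p i X := by
    have : (p : ℤ) ∣ Nm p i (-1) * Nm p i X ^ ph p i := by
      rw [← e]; exact (dvd_pow_self _ (ph_pos p i).ne').mul_right _
    exact hpp.dvd_of_dvd_pow ((hpp.dvd_or_dvd this).resolve_left hu1)
  obtain ⟨a, ha⟩ := hd
  refine ⟨a, ha, fun hpa => hu ?_⟩
  rw [ha, mul_pow] at e
  have hp0 : (p : ℤ) ^ ph p i ≠ 0 := pow_ne_zero _ hpp.ne_zero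
  have e' : Nm p i h = Nm p i (-1) * a ^ ph p i := by
    apply mul_left_cancel₀ hp0
    rw [e]; ring
  rw [e']
  exact (hpa.trans (dvd_pow_self _ (ph_pos p i).ne')).mul_left _

/-- `X ^ t g` has valuation exactly `t` for `g(0)` prime to `p` -/
theorem Nm_val (p i : ℕ) [hp : Fact p.Prime] (hi : 1 ≤ i) (t : ℕ) (g : ℤ[X])
    (hg : ¬ (p : ℤ) ∣ g.coeff 0) : ¬ (p : ℤ) ^ (t + 1) ∣ Nm p i (X ^ t * g) := by
  intro hd
  obtain ⟨a, ha, hpa⟩ := Nm_X p i hi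
  have hpp : Prime (p : ℤ) := Nat.prime_iff_prime_int.1 hp.out
  rw [Nm_mul, Nm_pow, ha, mul_pow, pow_succ, mul_assoc] at hd
  have := (mul_dvd_mul_iff_left (pow_ne_zero t hpp.ne_zero)).1 hd
  rcases hpp.dvd_or_dvd this with h | h
  · exact hpa (hpp.dvd_of_dvd_pow h)
  · exact Nm_unit p i hi g hg h

theorem term_eq (p i : ℕ) [hp : Fact p.Prime] {h : ℤ[X]}
    (hh : xi p i = X ^ ph p i + C (p : ℤ) * h) (b B j : ℕ) (hb : b ≤ B) (a : ℤ) :
    AdjoinRoot.mk (xi p i) (h ^ B * (C ((p : ℤ) ^ b * a) * X ^ j)) =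
      AdjoinRoot.mk (xi p i) (X ^ (b * ph p i + j) * (C ((-1) ^ b * a) * h ^ (B - b))) := by
  have e : h ^ B * (C ((p : ℤ) ^ b * a) * X ^ j) =
      (C (p : ℤ) * h) ^ b * (C a * h ^ (B - b) * X ^ j) := by
    rw [C_mul, C_pow, ← Nat.sub_add_cancel hb, pow_add, mul_pow, Nat.add_sub_cancel]; ring
  rw [e, map_mul, map_pow, mk_form p i hh, ← map_pow, ← map_mul]
  congr 1
  rw [neg_pow, pow_add, mul_comm b, pow_mul, C_mul, C_pow, C_neg, C_1]; ring

theorem term_dvd (p i : ℕ) [hp : Fact p.Prime] {h : ℤ[X]}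
    (hh : xi p i = X ^ ph p i + C (p : ℤ) * h) (b B j t : ℕ) (hb : b ≤ B) (a : ℤ)
    (ha : (p : ℤ) ^ b ∣ a) (ht : t ≤ b * ph p i + j) :
    AdjoinRoot.mk (xi p i) (X ^ t) ∣ AdjoinRoot.mk (xi p i) (h ^ B * (C a * X ^ j)) := by
  obtain ⟨a', rfl⟩ := ha
  rw [term_eq p i hh b B j hb]
  exact map_dvd _ ((pow_dvd_pow X ht).mul_right _)

/-- many coefficients divisible by a power of `p`: lower bound for the valuation -/
theorem val_ge (p i : ℕ) [hp : Fact p.Prime] (hi : 1 ≤ i) (f : ℤ[X]) (l B : ℕ)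
    (hf : ∀ j ≤ l, (p : ℤ) ^ B ∣ f.coeff j) (hB : l + 1 ≤ B * ph p i) :
    (p : ℤ) ^ (l + 1) ∣ Nm p i f := by
  obtain ⟨h, h0, hh⟩ := xi_form p i hi
  have hpp : Prime (p : ℤ) := Nat.prime_iff_prime_int.1 hp.out
  have hd : AdjoinRoot.mk (xi p i) (X ^ (l + 1)) ∣ AdjoinRoot.mk (xi p i) (h ^ B * f) := by
    conv_rhs => rw [f.as_sum_range_C_mul_X_pow, Finset.mul_sum, map_sum]
    refine Finset.dvd_sum fun j _ => ?_
    rcases le_or_gt j l with hj | hj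
    · exact term_dvd p i hh B B j _ le_rfl _ (hf j hj) (by omega)
    · exact term_dvd p i hh 0 B j _ (Nat.zero_le _) _ (by simp) (by omega)
  have hN : Nm p i (X ^ (l + 1)) ∣ Nm p i (h ^ B * f) := map_dvd (Algebra.norm ℤ) hd
  obtain ⟨a, ha, -⟩ := Nm_X p i hi
  rw [Nm_pow, ha, mul_pow, Nm_mul, Nm_pow] at hN
  have hN' : (p : ℤ) ^ (l + 1) ∣ Nm p i h ^ B * Nm p i f := (dvd_mul_right _ _).trans hN
  have hu : ¬ (p : ℤ) ∣ Nm p i h := Nm_unit p i hi h (by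
    rw [h0]; exact fun H => hpp.not_unit (isUnit_of_dvd_one H))
  have hco : IsCoprime ((p : ℤ) ^ (l + 1)) (Nm p i h ^ B) :=
    ((Prime.coprime_iff_not_dvd hpp).2 hu).pow
  exact hco.dvd_of_dvd_mul_left hN'

/-- exact valuation -/
theorem val_eq (p i : ℕ) [hp : Fact p.Prime] (hi : 1 ≤ i) (f : ℤ[X]) (b j₀ : ℕ)
    (h1 : ∀ j < j₀, (p : ℤ) ^ (b + 1) ∣ f.coeff j)
    (h2 : ∀ j ≤ b * ph p i + j₀, (p : ℤ) ^ b ∣ f.coeff j)
    (h3 : ¬ (p : ℤ) ^ (b + 1) ∣ f.coeff j₀) (h4 : j₀ < ph p i) :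
    ¬ (p : ℤ) ^ (b * ph p i + j₀ + 1) ∣ Nm p i f := by
  obtain ⟨h, h0, hh⟩ := xi_form p i hi
  have hpp : Prime (p : ℤ) := Nat.prime_iff_prime_int.1 hp.out
  obtain ⟨u, hu⟩ : (p : ℤ) ^ b ∣ f.coeff j₀ := h2 j₀ (by omega)
  have hpu : ¬ (p : ℤ) ∣ u := by
    rintro ⟨v, rfl⟩
    exact h3 ⟨v, by rw [hu]; ring⟩
  set t := b * ph p i + j₀ with ht
  -- everything but the `j₀` term is divisible by `X ^ (t + 1)`
  have hd : AdjoinRoot.mk (xi p i) (X ^ (t + 1)) ∣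
      AdjoinRoot.mk (xi p i) (h ^ (b + 1) * (f - C (f.coeff j₀) * X ^ j₀)) := by
    set f' := f - C (f.coeff j₀) * X ^ j₀ with hf'
    have hc : ∀ j, j ≠ j₀ → f'.coeff j = f.coeff j := by
      intro j hj
      rw [hf', coeff_sub, coeff_C_mul_X_pow, if_neg hj, sub_zero]
    have hc0 : f'.coeff j₀ = 0 := by
      rw [hf', coeff_sub, coeff_C_mul_X_pow, if_pos rfl, sub_self]
    conv_rhs => rw [f'.as_sum_range_C_mul_X_pow, Finset.mul_sum, map_sum]
    refine Finset.dvd_sum fun j _ => ?_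
    by_cases hj0 : j = j₀
    · rw [hj0, hc0]; simp
    rw [hc j hj0]
    rcases lt_or_ge j j₀ with hj | hj
    · refine term_dvd p i hh (b + 1) (b + 1) j _ le_rfl _ (h1 j hj) ?_
      rw [add_mul, one_mul]; omega
    · rcases le_or_gt j t with hjt | hjt
      · refine term_dvd p i hh b (b + 1) j _ (by omega) _ (h2 j hjt) (by omega)
      · exact term_dvd p i hh 0 (b + 1) j _ (Nat.zero_le _) _ (by simp) (by omega)
  obtain ⟨w, hw⟩ := hd
  obtain ⟨g, rfl⟩ := AdjoinRoot.mk_surjective w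
  have key : AdjoinRoot.mk (xi p i) (h ^ (b + 1) * f) =
      AdjoinRoot.mk (xi p i) (X ^ t * (C ((-1) ^ b * u) * h + X * g)) := by
    have e1 : h ^ (b + 1) * f = h ^ (b + 1) * (C ((p : ℤ) ^ b * u) * X ^ j₀) +
        h ^ (b + 1) * (f - C (f.coeff j₀) * X ^ j₀) := by rw [hu]; ring
    rw [e1, map_add, hw, term_eq p i hh b (b + 1) j₀ (by omega), ← map_mul, ← map_add,
      Nat.add_sub_cancel_left, pow_one]
    congr 1; ring
  intro hN
  refine Nm_val p i hi t (C ((-1) ^ b * u) * h + X * g) ?_ ?_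
  · rw [coeff_add, coeff_C_mul, h0, mul_one, mul_coeff_zero, coeff_X_zero, zero_mul, add_zero]
    rcases neg_one_pow_eq_or ℤ b with h | h
    · rw [h, one_mul]; exact hpu
    · rw [h, neg_one_mul, dvd_neg]; exact hpu
  · rw [← Nm_congr p i key, Nm_mul]
    exact hN.mul_left _

end Pool.Agent.H92.MuG
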