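import Pool.Agent.H92.MuG.Nrm

/-!
# Square relation matrices of finite `ℤ[X]`-modules (stub GROW of project MU)

A finite `p`-primary `ℤ[X]`-module with `X` locally nilpotent, generated by `x_1, ..., x_d`, has a
square matrix `M` of relations such that the norm of `det M` modulo `ξ_1` has `p`-adic valuation at
most the length of `V / ξ_1 V`.
-/

set_option autoImplicit false

namespace Pool.Agent.H92.MuG

open Polynomial Pool.Agent.H55.MU

theorem Nm_X_mul (p i : ℕ) [hp : Fact p.Prime] (hi : 1 ≤ i) (f : ℤ[X]) (k : ℕ)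
    (hf : ¬ (p : ℤ) ^ (k + 1) ∣ Nm p i f) : ¬ (p : ℤ) ^ (k + 2) ∣ Nm p i (X * f) := by
  intro hd
  obtain ⟨a, ha, hpa⟩ := Nm_X p i hi
  have hpp : Prime (p : ℤ) := Nat.prime_iff_prime_int.1 hp.out
  rw [Nm_mul, ha, pow_succ' _ (k + 1), mul_assoc] at hd
  have h1 := (mul_dvd_mul_iff_left hpp.ne_zero).1 hd
  have hco : IsCoprime ((p : ℤ) ^ (k + 1)) a := ((Prime.coprime_iff_not_dvd hpp).2 hpa).pow_left
  exact hf (hco.dvd_of_dvd_mul_left h1)

theorem exists_last {V : Type} (T : V → V) (W : Set V) (v : V) (hv : v ∉ W)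
    (h : ∃ k : ℕ, T^[k] v ∈ W) : ∃ m : ℕ, T^[m] v ∉ W ∧ T (T^[m] v) ∈ W := by
  classical
  have h0 : Nat.find h ≠ 0 := by
    intro h0
    have := Nat.find_spec h
    rw [h0] at this
    exact hv this
  obtain ⟨m, hm⟩ := Nat.exists_eq_succ_of_ne_zero h0
  refine ⟨m, Nat.find_min h (by omega), ?_⟩
  have := Nat.find_spec h
  rwa [hm, Nat.succ_eq_add_one, Function.iterate_succ_apply'] at this

/-- the multiplication by `f` -/
noncomputable abbrev ml (V : Type) [AddCommGroup V] [Module ℤ[X] V] (f : ℤ[X]) :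
    Submodule ℤ[X] V := LinearMap.range (LinearMap.lsmul ℤ[X] V f)

theorem mem_ml {V : Type} [AddCommGroup V] [Module ℤ[X] V] (f : ℤ[X]) (v : V) :
    v ∈ ml V f ↔ ∃ u : V, f • u = v := by
  rw [LinearMap.mem_range]; rfl

theorem exists_simple {V : Type} [AddCommGroup V] [Module ℤ[X] V] (p : ℕ)
    (hp : ∀ v : V, ∃ k : ℕ, (p ^ k) • v = 0) (hX : ∀ v : V, ∃ k : ℕ, (X ^ k : ℤ[X]) • v = 0)
    (W : Submodule ℤ[X] V) (hW : W ≠ ⊤) :
    ∃ v : V, v ∉ W ∧ (C (p : ℤ) : ℤ[X]) • v ∈ W ∧ (X : ℤ[X]) • v ∈ W := by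
  obtain ⟨v₀, hv₀⟩ : ∃ v, v ∉ W := by
    by_contra h
    push Not at h
    exact hW (eq_top_iff.2 fun v _ => h v)
  have hit : ∀ (g : ℤ[X]) (k : ℕ) (v : V), (fun v => g • v)^[k] v = g ^ k • v := by
    intro g k v
    induction k with
    | zero => simp
    | succ k ih => rw [Function.iterate_succ_apply', ih, smul_smul, pow_succ']
  have hpc : ∀ (k : ℕ) (v : V), (C (p : ℤ) : ℤ[X]) ^ k • v = (p ^ k) • v := by
    intro k v
    rw [← Nat.cast_smul_eq_nsmul ℤ[X] (p ^ k) v]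
    congr 1
    simp
  obtain ⟨a, ha, ha'⟩ := exists_last (fun v => (C (p : ℤ) : ℤ[X]) • v) (W : Set V) v₀ hv₀ (by
    obtain ⟨k, hk⟩ := hp v₀
    refine ⟨k, ?_⟩
    rw [hit, hpc, hk]
    exact W.zero_mem)
  set v₁ := (fun v => (C (p : ℤ) : ℤ[X]) • v)^[a] v₀ with hv₁
  obtain ⟨b, hb, hb'⟩ := exists_last (fun v => (X : ℤ[X]) • v) (W : Set V) v₁ ha (by
    obtain ⟨k, hk⟩ := hX v₁
    refine ⟨k, ?_⟩
    rw [hit, hk]
    exact W.zero_mem)
  refine ⟨_, hb, ?_, hb'⟩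
  rw [hit, smul_smul, mul_comm, ← smul_smul]
  exact W.smul_mem _ ha'

/-- elements of `W + A v` for `X v ∈ W` -/
theorem mem_sup_simple {V : Type} [AddCommGroup V] [Module ℤ[X] V] (W : Submodule ℤ[X] V) (v : V)
    (hX : (X : ℤ[X]) • v ∈ W) (y : V) (hy : y ∈ W ⊔ Submodule.span ℤ[X] {v}) :
    ∃ n : ℤ, y - (C n : ℤ[X]) • v ∈ W := by
  obtain ⟨w, hw, z, hz, rfl⟩ := Submodule.mem_sup.1 hy
  obtain ⟨c, rfl⟩ := Submodule.mem_span_singleton.1 hz
  obtain ⟨g, hg⟩ : X ∣ c - C (c.coeff 0) := X_dvd_iff.2 (by simp)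
  refine ⟨c.coeff 0, ?_⟩
  have e : w + c • v - (C (c.coeff 0) : ℤ[X]) • v = w + g • (X : ℤ[X]) • v := by
    rw [smul_smul, mul_comm g, ← hg, sub_smul]; abel
  rw [e]
  exact W.add_mem hw (W.smul_mem _ hX)

theorem card_step {V : Type} [AddCommGroup V] [Module ℤ[X] V] [Finite V] (p : ℕ)
    [hp : Fact p.Prime] (Z Z' : Submodule ℤ[X] V) (hZ : Z ≤ Z') (v : V) (hv : v ∉ Z) (hv' : v ∈ Z')
    (hpv : (C (p : ℤ) : ℤ[X]) • v ∈ Z) : p * Nat.card Z ≤ Nat.card Z' := by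
  have hinj : Function.Injective (fun a : Fin p × Z =>
      (⟨(C ((a.1 : ℕ) : ℤ) : ℤ[X]) • v + a.2, Z'.add_mem (Z'.smul_mem _ hv') (hZ a.2.2)⟩ : Z')) := by
    rintro ⟨a, z⟩ ⟨b, w⟩ h
    have h1 : (C ((a : ℕ) : ℤ) : ℤ[X]) • v + (z : V) = (C ((b : ℕ) : ℤ) : ℤ[X]) • v + (w : V) :=
      congrArg Subtype.val h
    have h2 : (C (((a : ℕ) : ℤ) - ((b : ℕ) : ℤ)) : ℤ[X]) • v ∈ Z := by
      have : (C (((a : ℕ) : ℤ) - ((b : ℕ) : ℤ)) : ℤ[X]) • v = (w : V) - z := by
        rw [C_sub, sub_smul, sub_eq_sub_iff_add_eq_add, h1]; abel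
      rw [this]; exact Z.sub_mem w.2 z.2
    have hab : a = b := by
      by_contra hne
      have hnd : ¬ (p : ℤ) ∣ (((a : ℕ) : ℤ) - ((b : ℕ) : ℤ)) := by
        intro hd
        apply hne
        have h3 : ((a : ℕ) : ℤ) - ((b : ℕ) : ℤ) = 0 := by
          refine Int.eq_zero_of_abs_lt_dvd hd ?_
          have ha := a.2
          have hb := b.2
          rw [abs_lt]; constructor <;> omega
        exact Fin.ext (by omega)
      have hco : IsCoprime (((a : ℕ) : ℤ) - ((b : ℕ) : ℤ)) (p : ℤ) :=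
        ((Prime.coprime_iff_not_dvd (Nat.prime_iff_prime_int.1 hp.out)).2 hnd).symm
      obtain ⟨s, t, hst⟩ := hco
      apply hv
      have : v = (C s : ℤ[X]) • (C (((a : ℕ) : ℤ) - ((b : ℕ) : ℤ)) : ℤ[X]) • v +
          (C t : ℤ[X]) • (C (p : ℤ) : ℤ[X]) • v := by
        rw [smul_smul, smul_smul, ← add_smul, ← C_mul, ← C_mul, ← C_add, hst, C_1, one_smul]
      rw [this]
      exact Z.add_mem (Z.smul_mem _ h2) (Z.smul_mem _ hpv)
    subst hab
    have : z = w := Subtype.ext (by simpa using h1)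
    rw [this]
  have := Nat.card_le_card_of_injective _ hinj
  rwa [Nat.card_prod, Nat.card_fin] at this

theorem relat (p : ℕ) [hp : Fact p.Prime] {V : Type} [AddCommGroup V] [Module ℤ[X] V] [Finite V]
    (hpV : ∀ v : V, ∃ k : ℕ, (p ^ k) • v = 0) (hXV : ∀ v : V, ∃ k : ℕ, (X ^ k : ℤ[X]) • v = 0)
    {d : ℕ} (x : Fin d → V) (hx : Submodule.span ℤ[X] (Set.range x) = ⊤)
    (W : Submodule ℤ[X] V) : ∃ (M : Matrix (Fin d) (Fin d) ℤ[X]) (k : ℕ),
      (∀ i, ∑ j, M i j • x j ∈ W) ∧ ¬ (p : ℤ) ^ (k + 1) ∣ Nm p 1 M.det ∧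
      p ^ k * Nat.card ↥(W ⊔ ml V (xi p 1)) ≤ Nat.card V := by
  classical
  have hpp : Prime (p : ℤ) := Nat.prime_iff_prime_int.1 hp.out
  induction W using WellFoundedGT.induction with
  | ind W ih =>
  by_cases hW : W = ⊤
  · refine ⟨1, 0, fun i => by rw [hW]; trivial, ?_, ?_⟩
    · rw [Matrix.det_one, Nm, map_one, map_one, zero_add, pow_one]
      exact fun H => hpp.not_unit (isUnit_of_dvd_one H)
    · rw [pow_zero, one_mul]
      exact Nat.card_le_card_of_injective _ Subtype.val_injective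
  obtain ⟨v, hv, hpv, hXv⟩ := exists_simple p hpV hXV W hW
  set W' := W ⊔ Submodule.span ℤ[X] {v} with hW'
  have hvW' : v ∈ W' := le_sup_right (a := W) (Submodule.mem_span_singleton_self v)
  have hlt : W < W' := lt_of_le_of_ne le_sup_left fun h => hv (by rw [h]; exact hvW')
  obtain ⟨M, k, h1, h2, h3⟩ := ih W' hlt
  choose n hn using fun i => mem_sup_simple W v hXv _ (h1 i)
  have hle : W ⊔ ml V (xi p 1) ≤ W' ⊔ ml V (xi p 1) := sup_le_sup_right hlt.le _
  have hmono : Nat.card ↥(W ⊔ ml V (xi p 1)) ≤ Nat.card ↥(W' ⊔ ml V (xi p 1)) :=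
    Nat.card_le_card_of_injective (Submodule.inclusion hle) (Submodule.inclusion_injective hle)
  by_cases hv' : v ∈ W ⊔ ml V (xi p 1)
  · -- first case: change the matrix modulo `ξ_1`
    obtain ⟨w, hw, z, hz, hwz⟩ := Submodule.mem_sup.1 hv'
    obtain ⟨u, rfl⟩ := (mem_ml _ _).1 hz
    have hu : u ∈ Submodule.span ℤ[X] (Set.range x) := by rw [hx]; trivial
    obtain ⟨c, rfl⟩ := (Submodule.mem_span_range_iff_exists_fun ℤ[X]).1 hu
    refine ⟨fun i j => M i j - xi p 1 * (C (n i) * c j), k, fun i => ?_, ?_, ?_⟩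
    · have e : ∑ j, (M i j - xi p 1 * (C (n i) * c j)) • x j =
          (∑ j, M i j • x j - (C (n i) : ℤ[X]) • v) + (C (n i) : ℤ[X]) • w := by
        rw [← hwz, smul_add, Finset.smul_sum, Finset.smul_sum, ← sub_sub]
        simp only [sub_smul, Finset.sum_sub_distrib]
        have : ∑ j, (xi p 1 * (C (n i) * c j)) • x j =
            ∑ j, (C (n i) : ℤ[X]) • xi p 1 • c j • x j := by
          refine Finset.sum_congr rfl fun j _ => ?_
          rw [smul_smul, smul_smul]; congr 1; ring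
        rw [this]; abel
      rw [e]
      exact W.add_mem (hn i) (W.smul_mem _ hw)
    · have : AdjoinRoot.mk (xi p 1)
          (Matrix.det (fun i j => M i j - xi p 1 * (C (n i) * c j) : Matrix _ _ ℤ[X])) =
          AdjoinRoot.mk (xi p 1) M.det := by
        rw [RingHom.map_det, RingHom.map_det]
        congr 1
        ext i j
        rw [RingHom.mapMatrix_apply, RingHom.mapMatrix_apply, Matrix.map_apply, Matrix.map_apply,
          map_sub, map_mul, AdjoinRoot.mk_self, zero_mul, sub_zero]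
      rw [Nm_congr p 1 this]
      exact h2
    · exact (Nat.mul_le_mul_left _ hmono).trans h3
  by_cases hall : ∀ i, (p : ℤ) ∣ n i
  · refine ⟨M, k, fun i => ?_, h2, (Nat.mul_le_mul_left _ hmono).trans h3⟩
    obtain ⟨m, hm⟩ := hall i
    have e : ∑ j, M i j • x j = (∑ j, M i j • x j - (C (n i) : ℤ[X]) • v) +
        (C m : ℤ[X]) • (C (p : ℤ) : ℤ[X]) • v := by
      rw [smul_smul, ← C_mul, mul_comm m, ← hm]; abel
    rw [e]
    exact W.add_mem (hn i) (W.smul_mem _ hpv)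
  push Not at hall
  obtain ⟨i₀, hi₀⟩ := hall
  obtain ⟨s, r, hsr⟩ : ∃ s r : ℤ, s * n i₀ = 1 + p * r := by
    obtain ⟨s, t, hst⟩ := ((Prime.coprime_iff_not_dvd hpp).2 hi₀).symm
    exact ⟨s, -t, by rw [← hst]; ring⟩
  -- second case: row operations
  let c : Fin d → ℤ[X] := fun i => if i = i₀ then 0 else -C (n i * s)
  let A : Matrix (Fin d) (Fin d) ℤ[X] := fun i j => M i j + c i * M i₀ j
  have hA : A.det = M.det :=
    Matrix.det_eq_of_forall_row_eq_smul_add_const c i₀ (if_pos rfl) fun i j => rfl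
  have hAi₀ : ∀ j, A i₀ j = M i₀ j := fun j => by simp [A, c]
  refine ⟨A.updateRow i₀ ((X : ℤ[X]) • A i₀), k + 1, fun i => ?_, ?_, ?_⟩
  · by_cases hi : i = i₀
    · subst hi
      have e : ∑ j, A.updateRow i ((X : ℤ[X]) • A i) i j • x j =
          (X : ℤ[X]) • (∑ j, M i j • x j - (C (n i) : ℤ[X]) • v) + (C (n i) : ℤ[X]) • (X : ℤ[X]) • v := by
        rw [smul_sub, Finset.smul_sum, smul_smul, smul_smul, mul_comm (X : ℤ[X]) (C (n i)),
          sub_add_cancel]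
        refine Finset.sum_congr rfl fun j _ => ?_
        rw [Matrix.updateRow_self, Pi.smul_apply, hAi₀, smul_smul, smul_eq_mul]
      rw [e]
      exact W.add_mem (W.smul_mem _ (hn i)) (W.smul_mem _ hXv)
    · have e : ∑ j, A.updateRow i₀ ((X : ℤ[X]) • A i₀) i j • x j =
          (∑ j, M i j • x j - (C (n i) : ℤ[X]) • v) -
          (C (n i * s) : ℤ[X]) • (∑ j, M i₀ j • x j - (C (n i₀) : ℤ[X]) • v) -
          (C (n i * r) : ℤ[X]) • (C (p : ℤ) : ℤ[X]) • v := by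
        have e1 : ∑ j, A.updateRow i₀ ((X : ℤ[X]) • A i₀) i j • x j =
            ∑ j, M i j • x j - (C (n i * s) : ℤ[X]) • ∑ j, M i₀ j • x j := by
          rw [Finset.smul_sum, ← Finset.sum_sub_distrib]
          refine Finset.sum_congr rfl fun j _ => ?_
          rw [Matrix.updateRow_ne hi]
          simp only [A, c, if_neg hi]
          rw [smul_smul, ← sub_smul]; congr 1; ring
        have e2 : (C (n i * s) : ℤ[X]) • (C (n i₀) : ℤ[X]) • v =
            (C (n i) : ℤ[X]) • v + (C (n i * r) : ℤ[X]) • (C (p : ℤ) : ℤ[X]) • v := by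
          rw [smul_smul, smul_smul, ← add_smul, ← C_mul, ← C_mul, ← C_add]
          congr 2
          rw [mul_assoc, hsr]; ring
        rw [e1, smul_sub, e2]; abel
      rw [e]
      exact W.sub_mem (W.sub_mem (hn i) (W.smul_mem _ (hn i₀))) (W.smul_mem _ hpv)
  · rw [Matrix.det_updateRow_smul, Matrix.updateRow_eq_self, hA]
    exact Nm_X_mul p 1 le_rfl _ _ h2
  · refine le_trans ?_ h3
    rw [pow_succ, mul_assoc]
    refine Nat.mul_le_mul_left _ (card_step p _ _ hle v hv' ?_ ?_)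
    · exact le_sup_left (a := W') hvW'
    · exact le_sup_left (a := W) hpv

end Pool.Agent.H92.MuG
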